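import Pool.Agent.Helper71.PR.Goals

/-!
# Project PR (MP_af9e5e_al), packet MR: rank one limits of compound matrices
-/

set_option autoImplicit false

namespace Pool.Agent.Helper77.PR

open Matrix Filter Topology Pool.Agent.Helper71.PR

theorem cp_smul {n : ℕ} (r : ℕ) (c : ℝ) (A : Mt n) : cp r (c • A) = c ^ r • cp r A := by
  ext I K
  show ((c • A).submatrix I.emb K.emb).det = c ^ r * (A.submatrix I.emb K.emb).det
  have h : (c • A).submatrix I.emb K.emb = c • (A.submatrix I.emb K.emb) := by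
    ext a b; rfl
  rw [h, Matrix.det_smul, Fintype.card_fin]

/-- the standard index set `{0, …, r-1}` -/
def I0 {n : ℕ} (r : ℕ) (h : r ≤ n) : JS r n :=
  ⟨(Finset.univ : Finset (Fin r)).map (Fin.castLEEmb h), by simp⟩

theorem mem_I0 {n : ℕ} (r : ℕ) (h : r ≤ n) (i : Fin n) : i ∈ (I0 r h).1 ↔ (i : ℕ) < r := by
  constructor
  · intro hi
    simp only [I0, Finset.mem_map, Finset.mem_univ, true_and] at hi
    obtain ⟨a, ha⟩ := hi
    rw [← ha]
    simp
  · intro hi
    simp only [I0, Finset.mem_map, Finset.mem_univ, true_and]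
    exact ⟨⟨i, hi⟩, by ext; simp⟩

/-- the vector of the standard index set -/
noncomputable def e0 {n : ℕ} (r : ℕ) (h : r ≤ n) : JS r n → ℝ := Pi.single (I0 r h) 1

/-- the diagonal matrix with `r` entries `1` and the others `x` -/
noncomputable def dg {n : ℕ} (r : ℕ) (x : ℝ) : Mt n := diagonal (fun i : Fin n => if (i : ℕ) < r then 1 else x)

theorem cp_dg_zero {n : ℕ} (r : ℕ) (h : r ≤ n) : cp r (dg r 0 : Mt n) = vecMulVec (e0 r h) (e0 r h) := by
  classical
  have key : ∀ K : JS r n, K ≠ I0 r h → ∃ a : Fin r, ¬ ((K.emb a : Fin n) : ℕ) < r := by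
    intro K hK
    have hex : ∃ i ∈ K.1, i ∉ (I0 r h).1 := by
      by_contra hcon
      push Not at hcon
      apply hK
      apply Subtype.ext
      exact Finset.eq_of_subset_of_card_le hcon (by rw [(I0 r h).2, K.2])
    obtain ⟨i, hi, hi0⟩ := hex
    have hi' : i ∈ Set.range (K.1.orderEmbOfFin K.2) := by
      rw [Finset.range_orderEmbOfFin]
      exact hi
    obtain ⟨a, ha⟩ := hi'
    refine ⟨a, ?_⟩
    intro hlt
    apply hi0
    rw [mem_I0, ← ha]
    exact hlt
  ext I K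
  show ((dg r 0 : Mt n).submatrix I.emb K.emb).det = e0 r h I * e0 r h K
  by_cases hI : I = I0 r h
  · by_cases hK : K = I0 r h
    · subst hI hK
      have h1 : (dg r 0 : Mt n).submatrix (I0 r h).emb (I0 r h).emb = 1 := by
        ext a b
        rw [Matrix.submatrix_apply, dg, Matrix.diagonal_apply, Matrix.one_apply]
        have hmem : (I0 r h).emb a ∈ (I0 r h).1 := Finset.orderEmbOfFin_mem (I0 r h).1 (I0 r h).2 a
        rw [mem_I0] at hmem
        by_cases hab : a = b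
        · subst hab
          simp [hmem]
        · rw [if_neg hab, if_neg]
          intro hc
          exact hab ((I0 r h).emb.injective hc)
      rw [h1, Matrix.det_one, e0, Pi.single_eq_same, one_mul]
    · obtain ⟨b, hb⟩ := key K hK
      have h0 : e0 r h K = 0 := by
        rw [e0, Pi.single_eq_of_ne hK]
      rw [h0, mul_zero]
      refine Matrix.det_eq_zero_of_column_eq_zero b ?_
      intro a
      rw [Matrix.submatrix_apply, dg, Matrix.diagonal_apply]
      by_cases hab : I.emb a = K.emb b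
      · rw [if_pos hab, hab, if_neg hb]
      · rw [if_neg hab]
  · obtain ⟨a, ha⟩ := key I hI
    have h0 : e0 r h I = 0 := by
      rw [e0, Pi.single_eq_of_ne hI]
    rw [h0, zero_mul]
    refine Matrix.det_eq_zero_of_row_eq_zero a ?_
    intro b
    rw [Matrix.submatrix_apply, dg, Matrix.diagonal_apply]
    by_cases hab : I.emb a = K.emb b
    · rw [if_pos hab, if_neg ha]
    · rw [if_neg hab]

theorem dg_continuous {n : ℕ} (r : ℕ) : Continuous (fun x : ℝ => (dg r x : Mt n)) := by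
  unfold dg
  refine Continuous.matrix_diagonal ?_
  refine continuous_pi fun i => ?_
  by_cases hi : (i : ℕ) < r
  · simp only [if_pos hi]; exact continuous_const
  · simp only [if_neg hi]; exact continuous_id

theorem dg_det {n : ℕ} (r : ℕ) (h : r ≤ n) (x : ℝ) : (dg r x : Mt n).det = x ^ (n - r) := by
  unfold dg
  rw [Matrix.det_diagonal, Finset.prod_ite, Finset.prod_const_one, one_mul, Finset.prod_const]
  congr 1
  have h1 : (Finset.univ.filter (fun i : Fin n => ¬ (i : ℕ) < r)) = (Finset.univ : Finset (Fin n)) \ (I0 r h).1 := by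
    ext i
    simp only [Finset.mem_filter, Finset.mem_univ, true_and, Finset.mem_sdiff, mem_I0]
  rw [h1, Finset.card_sdiff_of_subset (Finset.subset_univ _), (I0 r h).2, Finset.card_univ, Fintype.card_fin]

/-- the diagonal elements of `SL_n` going to infinity -/
noncomputable def DD {n : ℕ} (r : ℕ) (h : r ≤ n) (m : ℕ) : SLn n :=
  ⟨(((m : ℝ) + 1) ^ (n - r)) • (dg r ((((m : ℝ) + 1) ^ n)⁻¹) : Mt n), by
    rw [Matrix.det_smul, dg_det r h, Fintype.card_fin, ← pow_mul, inv_pow, ← pow_mul, Nat.mul_comm (n - r) n]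
    have : ((m : ℝ) + 1) ≠ 0 := by positivity
    field_simp⟩

theorem DD_cp {n : ℕ} (r : ℕ) (h : r ≤ n) (m : ℕ) :
    ((((m : ℝ) + 1) ^ (n - r)) ^ r)⁻¹ • cp r (DD (n := n) r h m).1 = cp r (dg r ((((m : ℝ) + 1) ^ n)⁻¹) : Mt n) := by
  show ((((m : ℝ) + 1) ^ (n - r)) ^ r)⁻¹ • cp r ((((m : ℝ) + 1) ^ (n - r)) • (dg r ((((m : ℝ) + 1) ^ n)⁻¹) : Mt n)) = _
  rw [cp_smul, smul_smul, inv_mul_cancel₀, one_smul]
  positivity

theorem dg_tendsto {n : ℕ} (r : ℕ) (hn : 1 ≤ n) :
    Tendsto (fun m : ℕ => cp r (dg r ((((m : ℝ) + 1) ^ n)⁻¹) : Mt n)) atTop (𝓝 (cp r (dg r 0 : Mt n))) := by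
  apply cp_tendsto
  refine ((dg_continuous r).tendsto 0).comp ?_
  have h1 : Tendsto (fun m : ℕ => ((m : ℝ) + 1) ^ n) atTop atTop := by
    refine (tendsto_pow_atTop (by omega)).comp ?_
    exact tendsto_atTop_add_const_right _ _ tendsto_natCast_atTop_atTop
  exact h1.inv_tendsto_atTop

/-- the closed condition -/
def Good {ι : Type} [Fintype ι] {ρ : ℕ} (V : Matrix (Fin ρ) ι ℝ) (U : Matrix ι (Fin ρ) ℝ) (Q : Mt ρ) (X : Matrix ι ι ℝ) : Prop :=
  ∀ a b c d : Fin ρ, ((V * X * U)ᵀ * Q * (V * X * U)) a b * Q c d = ((V * X * U)ᵀ * Q * (V * X * U)) c d * Q a b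

theorem Good.smul {ι : Type} [Fintype ι] {ρ : ℕ} {V : Matrix (Fin ρ) ι ℝ} {U : Matrix ι (Fin ρ) ℝ} {Q : Mt ρ}
    {X : Matrix ι ι ℝ} (h : Good V U Q X) (t : ℝ) : Good V U Q (t • X) := by
  intro a b c d
  have e : (V * (t • X) * U)ᵀ * Q * (V * (t • X) * U) = (t * t) • ((V * X * U)ᵀ * Q * (V * X * U)) := by
    rw [Matrix.mul_smul, Matrix.smul_mul, Matrix.transpose_smul, Matrix.smul_mul, Matrix.smul_mul, Matrix.mul_smul, smul_smul]
  rw [e, Matrix.smul_apply, Matrix.smul_apply, smul_eq_mul, smul_eq_mul, mul_assoc, h a b c d]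
  ring

theorem Good.lim {ι : Type} [Fintype ι] {ρ : ℕ} {V : Matrix (Fin ρ) ι ℝ} {U : Matrix ι (Fin ρ) ℝ} {Q : Mt ρ}
    {X : ℕ → Matrix ι ι ℝ} {Y : Matrix ι ι ℝ} (h : ∀ m, Good V U Q (X m)) (hX : Tendsto X atTop (𝓝 Y)) : Good V U Q Y := by
  intro a b c d
  have hc : Continuous (fun Z : Matrix ι ι ℝ => (V * Z * U)ᵀ * Q * (V * Z * U)) := by fun_prop
  have h1 : Tendsto (fun m => ((V * X m * U)ᵀ * Q * (V * X m * U)) a b * Q c d) atTop
      (𝓝 (((V * Y * U)ᵀ * Q * (V * Y * U)) a b * Q c d)) :=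
    (((hc.matrix_elem a b).mul_const (Q c d)).tendsto Y).comp hX
  have h2 : Tendsto (fun m => ((V * X m * U)ᵀ * Q * (V * X m * U)) c d * Q a b) atTop
      (𝓝 (((V * Y * U)ᵀ * Q * (V * Y * U)) c d * Q a b)) :=
    (((hc.matrix_elem c d).mul_const (Q a b)).tendsto Y).comp hX
  refine tendsto_nhds_unique h1 ?_
  convert h2 using 2
  exact h _ a b c d

theorem good_sl {n : ℕ} (Γ : Subgroup (SLn n)) (hZ : ZD Γ) (r : ℕ) {ρ : ℕ} (V : Matrix (Fin ρ) (JS r n) ℝ)
    (U : Matrix (JS r n) (Fin ρ) ℝ) (Q : Mt ρ) (hΓ : ∀ γ ∈ Γ, Good V U Q (cp r γ.1)) (g : SLn n) :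
    Good V U Q (cp r g.1) := by
  intro a b c d
  set MX : Matrix (Fin n) (Fin n) (MvPolynomial (Fin n × Fin n) ℝ) := Matrix.mvPolynomialX (Fin n) (Fin n) ℝ with hMX
  set CP : Matrix (JS r n) (JS r n) (MvPolynomial (Fin n × Fin n) ℝ) :=
    fun I K => (MX.submatrix I.emb K.emb).det with hCP
  set Cm : ℝ →+* MvPolynomial (Fin n × Fin n) ℝ := MvPolynomial.C with hCm
  set BP : Matrix (Fin ρ) (Fin ρ) (MvPolynomial (Fin n × Fin n) ℝ) := V.map Cm * CP * U.map Cm with hBP
  set p : MvPolynomial (Fin n × Fin n) ℝ :=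
    (BPᵀ * Q.map Cm * BP) a b * Cm (Q c d) - (BPᵀ * Q.map Cm * BP) c d * Cm (Q a b) with hp
  have hev : ∀ h : SLn n, MvPolynomial.eval (fun e => h.1 e.1 e.2) p =
      ((V * cp r h.1 * U)ᵀ * Q * (V * cp r h.1 * U)) a b * Q c d -
      ((V * cp r h.1 * U)ᵀ * Q * (V * cp r h.1 * U)) c d * Q a b := by
    intro h
    set ev : MvPolynomial (Fin n × Fin n) ℝ →+* ℝ := MvPolynomial.eval (fun e => h.1 e.1 e.2) with hev
    have hCe : ∀ x : ℝ, ev (Cm x) = x := by
      intro x
      rw [hev, hCm]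
      exact MvPolynomial.eval_C x
    have hcpe : CP.map ev = cp r h.1 := by
      ext I K
      show ev ((MX.submatrix I.emb K.emb).det) = (h.1.submatrix I.emb K.emb).det
      rw [RingHom.map_det]
      congr 1
      ext x y
      show ev (MX (I.emb x) (K.emb y)) = h.1 (I.emb x) (K.emb y)
      rw [hMX, Matrix.mvPolynomialX_apply, hev, MvPolynomial.eval_X]
    have hmapC : ∀ {κ κ' : Type} (M : Matrix κ κ' ℝ), (M.map Cm).map ev = M := by
      intro κ κ' M
      ext x y
      exact hCe _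
    have hBPe : BP.map ev = V * cp r h.1 * U := by
      rw [hBP, Matrix.map_mul, Matrix.map_mul, hmapC, hmapC, hcpe]
    have htot : (BPᵀ * Q.map Cm * BP).map ev = (V * cp r h.1 * U)ᵀ * Q * (V * cp r h.1 * U) := by
      rw [Matrix.map_mul, Matrix.map_mul, hmapC, ← hBPe]
      rfl
    have h1 : ∀ x y, ev ((BPᵀ * Q.map Cm * BP) x y) = ((V * cp r h.1 * U)ᵀ * Q * (V * cp r h.1 * U)) x y := by
      intro x y
      rw [← htot]; rfl
    rw [hp, map_sub, map_mul, map_mul, hCe, hCe, h1, h1]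
  have h0 := hZ p (fun γ hγ => by rw [hev γ, hΓ γ hγ a b c d, sub_self]) g
  rw [hev g] at h0
  exact sub_eq_zero.1 h0

theorem mr (h1 : G_SG) (h2 : G_N1) : G_MR := by
  classical
  intro n hn Γ hZ r hr
  by_cases htriv : Subsingleton (JS r n)
  · refine ⟨fun _ => 1, fun _ => 1, fun _ => 1, fun _ => 1, fun _ => Γ.one_mem, ?_, ?_, ?_⟩
    · intro h
      have := congrFun h (I0 r hr)
      exact one_ne_zero this
    · intro h
      have := congrFun h (I0 r hr)
      exact one_ne_zero this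
    · have : (fun _ : ℕ => (1 : ℝ) • cp r (1 : SLn n).1) = fun _ => vecMulVec (fun _ : JS r n => (1 : ℝ)) (fun _ => 1) := by
        funext m
        rw [one_smul]
        show cp r ((1 : SLn n).1) = _
        have e1 : (1 : SLn n).1 = (1 : Mt n) := rfl
        rw [e1, cp_one]
        ext I K
        have : I = K := htriv.elim _ _
        subst this
        rw [Matrix.one_apply_eq, vecMulVec_apply, one_mul]
      rw [this]
      exact tendsto_const_nhds
  have hrn : 1 ≤ n := hn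
  set S0 : Set (Matrix (JS r n) (JS r n) ℝ) := {X | ∃ (t : ℝ) (γ : SLn n), γ ∈ Γ ∧ X = t • cp r γ.1} with hS0
  set S := closure S0 with hS
  have hmul : ∀ A ∈ S, ∀ B ∈ S, A * B ∈ S := by
    intro A hA B hB
    refine map_mem_closure₂ (f := fun X Y => X * Y) (by fun_prop) hA hB ?_
    rintro X ⟨t, γ, hγ, rfl⟩ Y ⟨t', γ', hγ', rfl⟩
    refine ⟨t * t', γ * γ', Γ.mul_mem hγ hγ', ?_⟩
    have e1 : (γ * γ').1 = γ.1 * γ'.1 := rfl
    rw [e1, cp_mul, Matrix.smul_mul, Matrix.mul_smul, smul_smul]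
  have hsm : ∀ (t : ℝ), ∀ A ∈ S, t • A ∈ S := by
    intro t A hA
    refine map_mem_closure (f := fun X => t • X) (by fun_prop) hA ?_
    rintro X ⟨s, γ, hγ, rfl⟩
    exact ⟨t * s, γ, hγ, smul_smul t s _⟩
  have hne : ∃ A ∈ S, A ≠ 0 := by
    refine ⟨1, subset_closure ⟨1, 1, Γ.one_mem, ?_⟩, ?_⟩
    · have e1 : (1 : SLn n).1 = (1 : Mt n) := rfl
      rw [e1, cp_one, one_smul]
    · intro h
      have := congrFun (congrFun h (I0 r hr)) (I0 r hr)
      rw [Matrix.one_apply_eq] at this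
      exact one_ne_zero this
  obtain ⟨ρ, U, V, U', V', Q, hρ, hU, hV, hUV, hQ, hrel⟩ := h1 (JS r n) S isClosed_closure hmul hsm hne
  have hgood : ∀ g : SLn n, Good V U Q (cp r g.1) := by
    apply good_sl Γ hZ
    intro γ hγ a b c d
    obtain ⟨s, hs⟩ := hrel (cp r γ.1) (subset_closure ⟨1, γ, hγ, by rw [one_smul]⟩)
    rw [hs, Matrix.smul_apply, Matrix.smul_apply, smul_eq_mul, smul_eq_mul]
    ring
  set z : Fin ρ := ⟨0, hρ⟩ with hz
  have hVz : V z ≠ 0 := by
    intro h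
    have := congrFun (congrFun hV z) z
    rw [Matrix.one_apply_eq, Matrix.mul_apply] at this
    simp [h] at this
  have hUz : (fun i => U i z) ≠ 0 := by
    intro h
    have := congrFun (congrFun hU z) z
    rw [Matrix.one_apply_eq, Matrix.mul_apply] at this
    have h' : ∀ i, U i z = 0 := fun i => congrFun h i
    simp [h'] at this
  have he0 : e0 r hr ≠ (0 : JS r n → ℝ) := by
    intro h
    have := congrFun h (I0 r hr)
    rw [e0, Pi.single_eq_same] at this
    exact one_ne_zero this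
  obtain ⟨g1, hg1⟩ := h2 n r (V z) (e0 r hr) hVz he0
  obtain ⟨g2, hg2⟩ := h2 n r (e0 r hr) (fun i => U i z) he0 hUz
  set x : Fin ρ → ℝ := V *ᵥ (cp r g1.1 *ᵥ e0 r hr) with hx
  set y : Fin ρ → ℝ := (e0 r hr ᵥ* cp r g2.1) ᵥ* U with hy
  have hxz : x z ≠ 0 := hg1
  have hyz : y z ≠ 0 := by
    have e : y z = e0 r hr ⬝ᵥ (cp r g2.1 *ᵥ fun i => U i z) := by
      rw [Matrix.dotProduct_mulVec]
      rfl
    rw [e]
    exact hg2
  have hlim : Good V U Q (cp r g1.1 * vecMulVec (e0 r hr) (e0 r hr) * cp r g2.1) := by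
    have ht : Tendsto (fun m : ℕ => cp r g1.1 * cp r (dg r ((((m : ℝ) + 1) ^ n)⁻¹) : Mt n) * cp r g2.1) atTop
        (𝓝 (cp r g1.1 * vecMulVec (e0 r hr) (e0 r hr) * cp r g2.1)) := by
      rw [← cp_dg_zero r hr]
      have hc : Continuous (fun X : Matrix (JS r n) (JS r n) ℝ => cp r g1.1 * X * cp r g2.1) := by fun_prop
      exact (hc.tendsto _).comp (dg_tendsto r hn)
    refine Good.lim ?_ ht
    intro m
    rw [← DD_cp r hr m, Matrix.mul_smul, Matrix.smul_mul]
    apply Good.smul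
    have e : cp r g1.1 * cp r (DD r hr m).1 * cp r g2.1 = cp r (g1 * DD r hr m * g2).1 := by
      rw [← cp_mul, ← cp_mul]; rfl
    rw [e]
    exact hgood _
  have hB : V * (cp r g1.1 * vecMulVec (e0 r hr) (e0 r hr) * cp r g2.1) * U = vecMulVec x y := by
    rw [Matrix.mul_vecMulVec, Matrix.vecMulVec_mul, Matrix.mul_vecMulVec, Matrix.vecMulVec_mul]
  set q : ℝ := x ⬝ᵥ (Q *ᵥ x) with hq
  have hqpos : 0 < q := by
    have hxne : x ≠ 0 := by
      intro h
      exact hxz (congrFun h z)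
    have := hQ.dotProduct_mulVec_pos hxne
    simpa using this
  have hBB : ∀ a b, ((vecMulVec x y)ᵀ * Q * vecMulVec x y) a b = q * (y a * y b) := by
    intro a b
    rw [Matrix.transpose_vecMulVec, Matrix.vecMulVec_mul, Matrix.vecMulVec_mul_vecMulVec]
    rw [vecMulVec_apply, Pi.smul_apply, smul_eq_mul, hq, Matrix.dotProduct_mulVec x Q x]
    ring
  have hQy : Q = vecMulVec ((Q z z / (y z * y z)) • y) y := by
    ext c d
    have h3 := hlim z z c d
    rw [hB, hBB, hBB] at h3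
    rw [vecMulVec_apply, Pi.smul_apply, smul_eq_mul]
    have h4 : q * (y z * y z * Q c d) = q * (y c * y d * Q z z) := by linarith
    have h5 := mul_left_cancel₀ hqpos.ne' h4
    have h6 : y z * y z ≠ 0 := mul_ne_zero hyz hyz
    rw [div_mul_eq_mul_div, div_mul_eq_mul_div, eq_div_iff h6]
    linarith
  have hρ1 : ρ = 1 := by
    have h3 : Q.rank = ρ := by
      rw [Matrix.rank_of_isUnit Q hQ.isUnit, Fintype.card_fin]
    have h4 : Q.rank ≤ 1 := by
      rw [hQy]
      exact Matrix.rank_vecMulVec_le _ _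
    omega
  subst hρ1
  have hP : U * V = vecMulVec (fun i => U i z) (V z) := by
    ext i j
    rw [Matrix.mul_apply, vecMulVec_apply, Fin.sum_univ_one]
    rfl
  rw [hP] at hUV
  have hFC : FirstCountableTopology (Matrix (JS r n) (JS r n) ℝ) :=
    inferInstanceAs (FirstCountableTopology (JS r n → JS r n → ℝ))
  obtain ⟨X, hX, hXl⟩ := mem_closure_iff_seq_limit.1 hUV
  choose t γ hγ hXt using hX
  refine ⟨γ, t, fun i => U i z, V z, hγ, hUz, hVz, ?_⟩
  have : X = fun m => t m • cp r (γ m).1 := by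
    funext m
    exact hXt m
  rw [← this]
  exact hXl

end Pool.Agent.Helper77.PR
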